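import Pool.Agent.helper17.CH.SpecB
import Pool.Agent.helper46.GD.BV2
import Pool.Agent.helper85.SQ.RAW
import Pool.Agent.helper9.Tors.Divs

/-!
# Project CH (MP_5628fe_nt), row BVL: characters of large conductor, primes in the windows
-/

set_option autoImplicit false

namespace Pool.Agent.CH

open Finset ArithmeticFunction Filter
open GD (kp ks)
open Pool.Agent.helper85.BVP (alpha beta tau tau_nonneg sum_tau_sq_le log_nat_le sum_ext_Ioc alpha_apply
  alpha_nonneg alpha_le_log beta_eq_zero abs_beta_le)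

theorem BVL_ev (K : ℝ) (k : ℕ) (δ : ℝ) (hδ : 0 < δ) :
    ∀ᶠ X : ℕ in atTop, K * (1 + Real.log X) ^ k ≤ (X : ℝ) ^ δ := by
  have h1 : (fun x : ℝ => (1 + Real.log x) ^ k) =o[atTop] fun x : ℝ => x ^ δ := by
    have h2 : (fun x : ℝ => Real.log x ^ k) =o[atTop] fun x : ℝ => x ^ δ :=
      isLittleO_log_rpow_rpow_atTop (k : ℝ) hδ |>.congr_left (fun x => by simp)
    have h3 : (fun x : ℝ => (1 + Real.log x) ^ k) =O[atTop] fun x : ℝ => Real.log x ^ k := by
      refine Asymptotics.IsBigO.pow ?_ k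
      refine Asymptotics.IsBigO.of_bound 2 ?_
      filter_upwards [Real.tendsto_log_atTop.eventually_ge_atTop 1] with x hx
      rw [Real.norm_of_nonneg (by linarith), Real.norm_of_nonneg (by linarith)]
      linarith
    exact h3.trans_isLittleO h2
  have h4 : ∀ᶠ x : ℝ in atTop, K * (1 + Real.log x) ^ k ≤ x ^ δ := by
    have h5 := h1.bound (c := 1 / (|K| + 1)) (by positivity)
    filter_upwards [h5, eventually_ge_atTop 1] with x hx hx1
    have hl : 0 ≤ Real.log x := Real.log_nonneg hx1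
    rw [Real.norm_of_nonneg (by positivity), Real.norm_of_nonneg (by positivity)] at hx
    have h6 : 0 ≤ (1 + Real.log x) ^ k := by positivity
    calc K * (1 + Real.log x) ^ k ≤ (|K| + 1) * (1 + Real.log x) ^ k := by
          refine mul_le_mul_of_nonneg_right ?_ h6
          have := le_abs_self K
          linarith
      _ ≤ (|K| + 1) * (1 / (|K| + 1) * x ^ δ) := by
          refine mul_le_mul_of_nonneg_left hx (by positivity)
      _ = x ^ δ := by field_simp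
  exact tendsto_natCast_atTop_atTop.eventually h4

theorem BVL_kp_zero (R m c n : ℕ) (hm : 0 < m) (h : m < R) : kp R m c n = 0 := by
  classical
  unfold kp
  rw [Finset.sum_eq_zero]
  · simp
  · intro χ hχ
    exfalso
    rw [Finset.mem_filter] at hχ
    have := Nat.le_of_dvd hm χ.conductor_dvd_level
    omega

theorem BVL_cc_one (N : ℕ) (c : ℕ → ℝ) (j : ℕ) (hc : ∀ n, |c n| ≤ 1) : |cc N c j| ≤ 1 := by
  unfold cc
  by_cases h : ∃ n₀ ∈ Ico N (2 * N), j ∈ Win n₀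
  · obtain ⟨n₀, hn₀, hj⟩ := h
    rw [sum_eq_single n₀]
    · rw [if_pos hj]
      exact hc n₀
    · intro n _ hne
      rw [if_neg]
      intro hj2
      unfold Win at hj hj2
      rw [mem_Ioc] at hj hj2
      apply hne
      rcases lt_trichotomy n n₀ with h1 | h1 | h1
      · exfalso
        have h2 : (n + 1) ^ 3 ≤ n₀ ^ 3 := Nat.pow_le_pow_left h1 3
        omega
      · exact h1
      · exfalso
        have h2 : (n₀ + 1) ^ 3 ≤ n ^ 3 := Nat.pow_le_pow_left h1 3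
        omega
    · intro h
      exact absurd hn₀ h
  · push Not at h
    rw [sum_eq_zero (fun n hn => if_neg (h n hn))]
    simp

theorem BVL_cc_zero (N : ℕ) (c : ℕ → ℝ) (j : ℕ) (hj : 8 * N ^ 3 < j) : cc N c j = 0 := by
  unfold cc
  refine sum_eq_zero fun n hn => if_neg ?_
  unfold Win
  rw [mem_Ioc]
  rw [mem_Ico] at hn
  rintro ⟨-, h2⟩
  have h3 : (n + 1) ^ 3 ≤ (2 * N) ^ 3 := Nat.pow_le_pow_left hn.2 3
  have h4 : (2 * N) ^ 3 = 8 * N ^ 3 := by ring
  omega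

theorem BVL_Mo_mono {Q₁ Q₂ : ℝ} (h : Q₁ ≤ Q₂) : Mo Q₁ ⊆ Mo Q₂ := by
  intro m hm
  unfold Mo at hm ⊢
  rw [mem_filter, mem_Icc] at hm ⊢
  exact ⟨⟨hm.1.1, hm.1.2.trans (Nat.floor_le_floor h)⟩, hm.2⟩

/-- the bilinear sum cut into dyadic blocks -/
theorem BVL_split (κ : ℕ → ℝ) (x U I : ℕ) (hI : x ≤ 2 ^ I) (hU : 1 ≤ U) (hκ : ∀ j, x < j → κ j = 0) :
    ∑ a ∈ Ioc 0 x, alpha U a * ∑ b ∈ Ioc 0 (x / a), beta U b * κ (a * b) =
      ∑ i ∈ range I, ∑ l ∈ range I, ∑ a ∈ Ioc (U * 2 ^ i) (2 * (U * 2 ^ i)),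
        ∑ b ∈ Ioc (U * 2 ^ l) (2 * (U * 2 ^ l)),
          (if a ≤ x then alpha U a else 0) * (if b ≤ x then beta U b else 0) * κ (a * b) := by
  have hxB : x ≤ U * 2 ^ I := hI.trans (Nat.le_mul_of_pos_left _ (by omega))
  set f : ℕ → ℝ := fun a => if a ≤ x then alpha U a else 0 with hf
  set g : ℕ → ℝ := fun b => if b ≤ x then beta U b else 0 with hg
  have hf0 : ∀ a, a ≤ U → f a = 0 := by
    intro a ha
    rw [hf]
    simp only
    rw [alpha_apply, if_pos ha]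
    simp
  have hfx : ∀ a, x < a → f a = 0 := by
    intro a ha
    rw [hf]
    simp only
    rw [if_neg (by omega)]
  have hg0 : ∀ a, a ≤ U → g a = 0 := by
    intro a ha
    rw [hg]
    simp only
    rw [beta_eq_zero U a ha]
    simp
  have hgx : ∀ a, x < a → g a = 0 := by
    intro a ha
    rw [hg]
    simp only
    rw [if_neg (by omega)]
  have e1 : ∀ a, ∑ b ∈ Ioc 0 x, f a * g b * κ (a * b) =
      ∑ l ∈ range I, ∑ b ∈ Ioc (U * 2 ^ l) (2 * (U * 2 ^ l)), f a * g b * κ (a * b) := by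
    intro a
    rw [sum_ext_Ioc (fun b => f a * g b * κ (a * b)) x U (U * 2 ^ I)
      (fun b hb => by rw [hg0 b hb, mul_zero, zero_mul])
      (fun b hb => by rw [hgx b hb, mul_zero, zero_mul]) hxB,
      Pool.Agent.helper85.SQ.dyadic_sum]
  have e2 : ∀ a ∈ Ioc 0 x, alpha U a * ∑ b ∈ Ioc 0 (x / a), beta U b * κ (a * b) =
      ∑ b ∈ Ioc 0 x, f a * g b * κ (a * b) := by
    intro a ha
    rw [mem_Ioc] at ha
    rw [mul_sum]
    have hfa : f a = alpha U a := by
      rw [hf]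
      simp only
      rw [if_pos ha.2]
    have h1 : ∑ b ∈ Ioc 0 (x / a), alpha U a * (beta U b * κ (a * b)) =
        ∑ b ∈ Ioc 0 (x / a), f a * g b * κ (a * b) := by
      refine sum_congr rfl fun b hb => ?_
      rw [mem_Ioc] at hb
      have hgb : g b = beta U b := by
        rw [hg]
        simp only
        rw [if_pos (hb.2.trans (Nat.div_le_self x a))]
      rw [hfa, hgb]
      ring
    rw [h1]
    refine sum_subset (Ioc_subset_Ioc_right (Nat.div_le_self x a)) ?_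
    intro b hb hb2
    rw [mem_Ioc] at hb hb2
    have h2 : x / a < b := by
      by_contra h
      exact hb2 ⟨hb.1, by omega⟩
    have h3 : x < a * b := by
      have := (Nat.div_lt_iff_lt_mul ha.1).1 h2
      rw [mul_comm]
      exact this
    rw [hκ _ h3, mul_zero]
  rw [sum_congr rfl e2, sum_ext_Ioc (fun a => ∑ b ∈ Ioc 0 x, f a * g b * κ (a * b)) x U (U * 2 ^ I)
    (fun a ha => sum_eq_zero fun b _ => by rw [hf0 a ha, zero_mul, zero_mul])
    (fun a ha => sum_eq_zero fun b _ => by rw [hfx a ha, zero_mul, zero_mul]) hxB,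
    Pool.Agent.helper85.SQ.dyadic_sum]
  refine sum_congr rfl fun i _ => ?_
  rw [sum_congr rfl fun a _ => e1 a, sum_comm]


theorem BVL_logx (N : ℕ) (hN : 1 ≤ N) :
    1 + Real.log ((64 * N ^ 3 : ℕ) : ℝ) ≤ 6 * (1 + Real.log N) := by
  have hN0 : (0 : ℝ) < N := by exact_mod_cast hN
  have h0 : 0 ≤ Real.log N := Real.log_natCast_nonneg N
  have h1 : ((64 * N ^ 3 : ℕ) : ℝ) = 2 ^ 6 * (N : ℝ) ^ 3 := by
    push_cast
    norm_num
  rw [h1, Real.log_mul (by norm_num) (by positivity), Real.log_pow, Real.log_pow]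
  have h2 := Real.log_two_lt_d9
  push_cast
  linarith

/-- bounds for the coefficients -/
theorem BVL_coef (e : ℝ) (he : 0 < e) : ∀ᶠ N : ℕ in atTop, ∀ U : ℕ,
    (∀ a : ℕ, |(if a ≤ 64 * N ^ 3 then alpha U a else 0 : ℝ)| ≤ (N : ℝ) ^ (e / 16)) ∧
    (∀ b : ℕ, |(if b ≤ 64 * N ^ 3 then beta U b else 0 : ℝ)| ≤ (N : ℝ) ^ (e / 16)) ∧
    (∀ M : ℕ, ∑ a ∈ Ioc M (2 * M), (if a ≤ 64 * N ^ 3 then alpha U a else 0 : ℝ) ^ 2 ≤
      M * Real.log N ^ 4) ∧
    (∀ K : ℕ, ∑ b ∈ Ioc K (2 * K), (if b ≤ 64 * N ^ 3 then beta U b else 0 : ℝ) ^ 2 ≤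
      K * Real.log N ^ 4) := by
  obtain ⟨C₁, hC₁, hdiv⟩ := Pool.Agent.helper9.Tors.divisor_bound (e / 128) (by positivity)
  have ev1 := BVL_ev 6 1 (e / 16) (by positivity)
  have ev2 := BVL_ev C₁ 0 (e / 32) (by positivity)
  have ev3 : ∀ᶠ X : ℕ in atTop, 3456 ≤ Real.log X :=
    (Real.tendsto_log_atTop.comp tendsto_natCast_atTop_atTop).eventually_ge_atTop _
  filter_upwards [ev1, ev2, ev3, eventually_ge_atTop 64] with N e1 e2 e3 e4 U
  have hN1 : 1 ≤ N := by omega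
  have hN1r : (1 : ℝ) ≤ N := by exact_mod_cast hN1
  have hN0 : (0 : ℝ) < N := by linarith
  set L := Real.log N with hL
  have hL0 : 0 ≤ L := by linarith
  have hx := BVL_logx N hN1
  rw [← hL] at hx
  have hlx : 0 ≤ Real.log ((64 * N ^ 3 : ℕ) : ℝ) := Real.log_natCast_nonneg _
  have hal : ∀ a : ℕ, |(if a ≤ 64 * N ^ 3 then alpha U a else 0 : ℝ)| ≤ 6 * (1 + L) := by
    intro a
    split_ifs with h
    · rw [abs_of_nonneg (alpha_nonneg U a)]
      have h1 := alpha_le_log U a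
      have h2 := log_nat_le h
      linarith
    · rw [abs_zero]
      positivity
  have hbl : ∀ b : ℕ, |(if b ≤ 64 * N ^ 3 then beta U b else 0 : ℝ)| ≤ (N : ℝ) ^ (e / 16) := by
    intro b
    split_ifs with h
    · refine (abs_beta_le U b).trans ?_
      rcases Nat.eq_zero_or_pos b with rfl | hb
      · have : tau 0 = 0 := by
          unfold tau
          simp
        rw [this]
        positivity
      · unfold tau
        refine (hdiv b (by omega)).trans ?_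
        have h1 : (b : ℝ) ≤ (N : ℝ) ^ (4 : ℝ) := by
          have h2 : b ≤ N ^ 4 := by
            calc b ≤ 64 * N ^ 3 := h
              _ ≤ N * N ^ 3 := Nat.mul_le_mul_right _ e4
              _ = N ^ 4 := by ring
          have h3 : (b : ℝ) ≤ ((N ^ 4 : ℕ) : ℝ) := by exact_mod_cast h2
          rw [show (4 : ℝ) = ((4 : ℕ) : ℝ) by norm_num, Real.rpow_natCast]
          push_cast at h3
          exact h3
        have h4 : (b : ℝ) ^ (e / 128) ≤ (N : ℝ) ^ (e / 32) := by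
          calc (b : ℝ) ^ (e / 128) ≤ ((N : ℝ) ^ (4 : ℝ)) ^ (e / 128) :=
                Real.rpow_le_rpow (by positivity) h1 (by positivity)
            _ = (N : ℝ) ^ (e / 32) := by
                rw [← Real.rpow_mul hN0.le]
                congr 1
                ring
        have h5 : C₁ ≤ (N : ℝ) ^ (e / 32) := by simpa using e2
        calc C₁ * (b : ℝ) ^ (e / 128) ≤ (N : ℝ) ^ (e / 32) * (N : ℝ) ^ (e / 32) :=
              mul_le_mul h5 h4 (by positivity) (by positivity)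
          _ = (N : ℝ) ^ (e / 16) := by
              rw [← Real.rpow_add hN0]
              congr 1
              ring
    · rw [abs_zero]
      positivity
  refine ⟨fun a => (hal a).trans (by simpa using e1), hbl, fun M => ?_, fun K => ?_⟩
  · have h1 : ∀ a ∈ Ioc M (2 * M), (if a ≤ 64 * N ^ 3 then alpha U a else 0 : ℝ) ^ 2 ≤ L ^ 4 := by
      intro a _
      rw [← sq_abs]
      calc |(if a ≤ 64 * N ^ 3 then alpha U a else 0 : ℝ)| ^ 2 ≤ (6 * (1 + L)) ^ 2 :=
            pow_le_pow_left₀ (abs_nonneg _) (hal a) 2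
        _ ≤ (L ^ 2) ^ 2 := by
            refine pow_le_pow_left₀ (by positivity) ?_ 2
            nlinarith
        _ = L ^ 4 := by ring
    refine (sum_le_sum h1).trans (le_of_eq ?_)
    rw [sum_const, nsmul_eq_mul, Nat.card_Ioc]
    congr 2
    omega
  · have h1 : ∀ b ∈ Ioc K (2 * K), (if b ≤ 64 * N ^ 3 then beta U b else 0 : ℝ) ^ 2 ≤
        if b ≤ 64 * N ^ 3 then tau b ^ 2 else 0 := by
      intro b _
      split_ifs with h
      · rw [← sq_abs]
        exact pow_le_pow_left₀ (abs_nonneg _) (abs_beta_le U b) 2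
      · norm_num
    refine (sum_le_sum h1).trans ?_
    rw [← sum_filter]
    have h2 : (Ioc K (2 * K)).filter (fun b => b ≤ 64 * N ^ 3) ⊆ Ioc 0 (min (2 * K) (64 * N ^ 3)) := by
      intro b hb
      rw [mem_filter, mem_Ioc] at hb
      rw [mem_Ioc, le_min_iff]
      exact ⟨by omega, hb.1.2, hb.2⟩
    refine (sum_le_sum_of_subset_of_nonneg h2 fun _ _ _ => sq_nonneg _).trans ?_
    refine (sum_tau_sq_le _).trans ?_
    have h3 : ((min (2 * K) (64 * N ^ 3) : ℕ) : ℝ) ≤ 2 * K := by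
      exact_mod_cast min_le_left _ _
    have h4 : 1 + Real.log ((min (2 * K) (64 * N ^ 3) : ℕ) : ℝ) ≤ 6 * (1 + L) := by
      have := log_nat_le (min_le_right (2 * K) (64 * N ^ 3))
      linarith
    have h5 : 0 ≤ 1 + Real.log ((min (2 * K) (64 * N ^ 3) : ℕ) : ℝ) := by
      have := Real.log_natCast_nonneg (min (2 * K) (64 * N ^ 3))
      linarith
    calc ((min (2 * K) (64 * N ^ 3) : ℕ) : ℝ) * (1 + Real.log ((min (2 * K) (64 * N ^ 3) : ℕ) : ℝ)) ^ 3
        ≤ (2 * K) * (6 * (1 + L)) ^ 3 :=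
          mul_le_mul h3 (pow_le_pow_left₀ h5 h4 3) (by positivity) (by positivity)
      _ = K * (432 * (1 + L) ^ 3) := by ring
      _ ≤ K * L ^ 4 := by
          refine mul_le_mul_of_nonneg_left ?_ (by positivity)
          calc 432 * (1 + L) ^ 3 ≤ 432 * (2 * L) ^ 3 := by
                have : (1 + L) ^ 3 ≤ (2 * L) ^ 3 :=
                  pow_le_pow_left₀ (by positivity) (by linarith) 3
                linarith
            _ = 3456 * L ^ 3 := by ring
            _ ≤ L * L ^ 3 := by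
                have : 0 ≤ L ^ 3 := by positivity
                exact mul_le_mul_of_nonneg_right e3 this
            _ = L ^ 4 := by ring

/-- **BVL** -/
theorem BVL (h1 : TY1_stmt) (h2 : BKB_stmt) : BVL_stmt := by
  intro ε A hε hε1
  set e : ℝ := min (ε / 2) (1 / 10) with he_def
  have he : 0 < e := lt_min (by positivity) (by norm_num)
  have he10 : e ≤ 1 / 10 := min_le_right _ _
  have he2 : 2 * e ≤ ε := by
    have := min_le_left (ε / 2) (1 / 10)
    rw [← he_def] at this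
    linarith
  obtain ⟨C, δ, N₁, hC, hδ, hB⟩ := h2 e (e / 5) 4 he he10 (by positivity)
  obtain ⟨C₀, hC₀, hdiv⟩ := Pool.Agent.helper9.Tors.divisor_bound (e / 8) (by positivity)
  refine ⟨A + 8, ?_⟩
  have ev0 := BVL_coef e he
  have ev1 := BVL_ev (12 * (2 + 480 * C₀)) (A + 1) (13 * e / 4) (by positivity)
  have ev2 := BVL_ev 576 (A + 2) δ hδ
  have ev3 : ∀ᶠ X : ℕ in atTop, 2304 * C + 1 ≤ Real.log X :=
    (Real.tendsto_log_atTop.comp tendsto_natCast_atTop_atTop).eventually_ge_atTop _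
  have ev4 := BVL_ev 2 0 (e / 20) (by positivity)
  obtain ⟨N₀, hN₀⟩ := eventually_atTop.1 (ev0.and (ev1.and (ev2.and (ev3.and
    (ev4.and (eventually_ge_atTop (max N₁ 64)))))))
  refine ⟨N₀, fun N hN c hc r hr R hR => ?_⟩
  obtain ⟨e0, e1, e2, e3, e4, e5⟩ := hN₀ N hN
  have hNN₁ : N₁ ≤ N := (le_max_left _ _).trans e5
  have hN64 : 64 ≤ N := (le_max_right _ _).trans e5
  have hN1 : 1 ≤ N := by omega
  have hN1r : (1 : ℝ) ≤ N := by exact_mod_cast hN1
  have hN0 : (0 : ℝ) < N := by linarith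
  set L := Real.log N with hL
  have hL1 : 1 ≤ L := by
    have : 0 ≤ 2304 * C := by positivity
    linarith
  have hLpos : 0 < L := by linarith
  set Q : ℝ := (N : ℝ) ^ (1 - 2 * e) with hQ
  have hsub : Mo ((N : ℝ) ^ (1 - ε)) ⊆ Mo Q :=
    BVL_Mo_mono (Real.rpow_le_rpow_of_exponent_le hN1r (by linarith))
  refine (sum_le_sum_of_subset_of_nonneg hsub fun _ _ _ => abs_nonneg _).trans ?_
  have hrhs : 0 ≤ (N : ℝ) ^ 3 / L ^ A := by positivity
  have hRr : (1 : ℝ) ≤ R := (one_le_pow₀ hL1).trans hR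
  have hR1 : 1 ≤ R := by exact_mod_cast hRr
  have hMo : ∀ m ∈ Mo Q, 1 ≤ m ∧ (m : ℝ) ≤ Q := by
    intro m hm
    unfold Mo at hm
    rw [mem_filter, mem_Icc] at hm
    exact ⟨hm.1.1, (Nat.le_floor_iff (by positivity)).1 hm.1.2⟩
  have hQN : Q ≤ N := by
    calc Q ≤ (N : ℝ) ^ (1 : ℝ) := Real.rpow_le_rpow_of_exponent_le hN1r (by linarith)
      _ = N := Real.rpow_one _
  by_cases hQR : 30 * Q < R
  · rw [sum_eq_zero]
    · exact hrhs
    · intro m hm
      obtain ⟨m1, m2⟩ := hMo m hm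
      rw [sum_eq_zero, abs_zero]
      intro n _
      rw [BVL_kp_zero R (30 * m) _ n (by omega), mul_zero]
      have : ((30 * m : ℕ) : ℝ) < R := by
        push_cast
        linarith
      exact_mod_cast this
  push Not at hQR
  set U := ⌊(N : ℝ) ^ (e / 4)⌋₊ with hU
  have hUN : (U : ℝ) ≤ (N : ℝ) ^ (e / 4) := Nat.floor_le (by positivity)
  have hU2 : (N : ℝ) ^ (e / 5) ≤ U := by
    have k1 : (N : ℝ) ^ (e / 4) < U + 1 := Nat.lt_floor_add_one _
    have k2 : (N : ℝ) ^ (e / 4) = (N : ℝ) ^ (e / 5) * (N : ℝ) ^ (e / 20) := by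
      rw [← Real.rpow_add hN0]
      congr 1
      ring
    have k3 : (2 : ℝ) ≤ (N : ℝ) ^ (e / 20) := by simpa using e4
    have k4 : (1 : ℝ) ≤ (N : ℝ) ^ (e / 5) := Real.one_le_rpow hN1r (by positivity)
    have k5 : (N : ℝ) ^ (e / 5) * 2 ≤ (N : ℝ) ^ (e / 4) := by
      rw [k2]
      exact mul_le_mul_of_nonneg_left k3 (by positivity)
    linarith
  have hU1 : 1 ≤ U := by
    have k4 : (1 : ℝ) ≤ (N : ℝ) ^ (e / 5) := Real.one_le_rpow hN1r (by positivity)
    exact_mod_cast k4.trans hU2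
  set x := 64 * N ^ 3 with hx
  set I := Nat.log 2 x + 1 with hI
  have hx1 : 1 ≤ x := by
    rw [hx]
    have : 0 < N ^ 3 := by positivity
    omega
  have hIx : x ≤ 2 ^ I := (Nat.lt_pow_succ_log_self (by norm_num) x).le
  have hlx := BVL_logx N hN1
  rw [← hL, ← hx] at hlx
  have hlogx : 0 ≤ Real.log (x : ℝ) := Real.log_natCast_nonneg x
  have hIr : (I : ℝ) ≤ 12 * (1 + L) := by
    have k1 : 2 ^ Nat.log 2 x ≤ x := Nat.pow_log_le_self 2 (by omega)
    have k2 : Real.log ((2 : ℝ) ^ Nat.log 2 x) ≤ Real.log x :=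
      Real.log_le_log (by positivity) (by exact_mod_cast k1)
    rw [Real.log_pow] at k2
    have k3 := Real.log_two_gt_d9
    have k4 : (0 : ℝ) ≤ Nat.log 2 x := Nat.cast_nonneg _
    have k5 : (Nat.log 2 x : ℝ) * (1 / 2) ≤ Nat.log 2 x * Real.log 2 :=
      mul_le_mul_of_nonneg_left (by linarith) k4
    rw [hI]
    push_cast
    linarith
  set T : ℝ := 120 * C₀ * (N : ℝ) ^ (2 - 7 * e / 4) with hT
  obtain ⟨f1, f2, f3, f4⟩ := e0 U
  set Bd : ℝ := C * (N : ℝ) ^ 3 * L ^ 5 / R + (N : ℝ) ^ (3 - δ) with hBd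
  have hBd0 : 0 ≤ Bd := by positivity
  -- symmetric form of the block bound
  have hblock : ∀ (M K : ℕ) (α β : ℕ → ℝ), (N : ℝ) ^ (e / 5) ≤ M → (N : ℝ) ^ (e / 5) ≤ K →
      (∀ a, |α a| ≤ (N : ℝ) ^ (e / 16)) → (∀ b, |β b| ≤ (N : ℝ) ^ (e / 16)) →
      ∑ a ∈ Ioc M (2 * M), α a ^ 2 ≤ M * L ^ 4 → ∑ b ∈ Ioc K (2 * K), β b ^ 2 ≤ K * L ^ 4 →
      ∑ m ∈ Mo Q, |∑ a ∈ Ioc M (2 * M), ∑ b ∈ Ioc K (2 * K),
        α a * β b * (cc N c (a * b) * kp R (30 * m) (r m) (a * b))| ≤ Bd := by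
    intro M K α β hM hK ha hb ha2 hb2
    by_cases hMK : M * K ≤ 8 * N ^ 3
    · rcases le_total K M with hle | hle
      · exact hB N hNN₁ c hc r (Or.inl hr) R M K α β hR1 hle hK hMK ha hb ha2 hb2
      · have k := hB N hNN₁ c hc r (Or.inl hr) R K M β α hR1 hle hM (by rw [mul_comm]; exact hMK)
          hb ha hb2 ha2
        refine le_trans (le_of_eq ?_) k
        refine sum_congr rfl fun m _ => ?_
        congr 1
        rw [sum_comm]
        refine sum_congr rfl fun a _ => sum_congr rfl fun b _ => ?_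
        rw [mul_comm a b]
        ring
    · push Not at hMK
      rw [sum_eq_zero]
      · exact hBd0
      · intro m _
        rw [sum_eq_zero, abs_zero]
        intro a ha'
        refine sum_eq_zero fun b hb' => ?_
        rw [mem_Ioc] at ha' hb'
        rw [BVL_cc_zero N c (a * b) (hMK.trans_le (Nat.mul_le_mul ha'.1.le hb'.1.le)), zero_mul,
          mul_zero]
  have key : ∀ m ∈ Mo Q, |∑ j ∈ Ioc 0 x, vonMangoldt j * cc N c j * kp R (30 * m) (r m) j| ≤
      (2 + 4 * T) * (U : ℝ) ^ 2 * (1 + Real.log x) +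
      ∑ i ∈ range I, ∑ l ∈ range I, |∑ a ∈ Ioc (U * 2 ^ i) (2 * (U * 2 ^ i)),
        ∑ b ∈ Ioc (U * 2 ^ l) (2 * (U * 2 ^ l)),
          (if a ≤ x then alpha U a else 0) * (if b ≤ x then beta U b else 0) *
            (cc N c (a * b) * kp R (30 * m) (r m) (a * b))| := by
    intro m hm
    obtain ⟨m1, m2⟩ := hMo m hm
    have hm0 : 0 < 30 * m := by omega
    set κ : ℕ → ℝ := fun n => cc N c n * kp R (30 * m) (r m) n with hκ
    have g1 : ∀ n, |κ n| ≤ 1 := by
      intro n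
      rw [hκ]
      simp only
      rw [abs_mul]
      have k1 := BVL_cc_one N c n hc
      have k2 := (GD.BV2 R (30 * m) (r m) hR1 hm0).1 n
      calc |cc N c n| * |kp R (30 * m) (r m) n| ≤ 1 * 1 :=
            mul_le_mul k1 k2 (abs_nonneg _) zero_le_one
        _ = 1 := one_mul 1
    have g2 : ∀ d y : ℕ, |∑ k ∈ Ioc 0 y, κ (d * k)| ≤ T := by
      intro d y
      refine (h1 N c R (30 * m) (r m) d y hc hR1 hm0).trans ?_
      have k1 := hdiv (30 * m) (by omega)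
      have k2 : ((30 * m : ℕ) : ℝ) ≤ (N : ℝ) ^ (2 : ℝ) := by
        rw [show (2 : ℝ) = ((2 : ℕ) : ℝ) by norm_num, Real.rpow_natCast]
        push_cast
        have : (64 : ℝ) ≤ N := by exact_mod_cast hN64
        nlinarith
      have k3 : ((30 * m : ℕ) : ℝ) ^ (e / 8) ≤ (N : ℝ) ^ (e / 4) := by
        calc ((30 * m : ℕ) : ℝ) ^ (e / 8) ≤ ((N : ℝ) ^ (2 : ℝ)) ^ (e / 8) :=
              Real.rpow_le_rpow (by positivity) k2 (by positivity)
          _ = (N : ℝ) ^ (e / 4) := by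
              rw [← Real.rpow_mul hN0.le]
              congr 1
              ring
      have k4 : ((30 * m).divisors.card : ℝ) ≤ C₀ * (N : ℝ) ^ (e / 4) :=
        k1.trans (mul_le_mul_of_nonneg_left k3 hC₀.le)
      calc 4 * (N : ℝ) * R * ((30 * m).divisors.card : ℝ)
          ≤ 4 * (N : ℝ) * (30 * Q) * (C₀ * (N : ℝ) ^ (e / 4)) := by gcongr
        _ = 120 * C₀ * ((N : ℝ) ^ (1 : ℝ) * Q * (N : ℝ) ^ (e / 4)) := by
            rw [Real.rpow_one]
            ring
        _ = T := by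
            rw [hT, hQ, ← Real.rpow_add hN0, ← Real.rpow_add hN0]
            congr 2
            ring
    have g3 : ∀ j, x < j → κ j = 0 := by
      intro j hj
      rw [hκ]
      simp only
      rw [BVL_cc_zero N c j (by omega), zero_mul]
    have k0 := Pool.Agent.helper85.SQ.single κ T g1 g2 x U hU1
    rw [BVL_split κ x U I hIx hU1 g3] at k0
    have k1 : ∑ j ∈ Ioc 0 x, vonMangoldt j * cc N c j * kp R (30 * m) (r m) j =
        ∑ n ∈ Ioc 0 x, vonMangoldt n * κ n := by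
      refine sum_congr rfl fun j _ => ?_
      rw [hκ]
      ring
    rw [k1]
    refine k0.trans (add_le_add le_rfl ?_)
    refine (abs_sum_le_sum_abs _ _).trans (sum_le_sum fun i _ => ?_)
    exact abs_sum_le_sum_abs _ _
  refine (sum_le_sum key).trans ?_
  rw [sum_add_distrib, sum_const, nsmul_eq_mul]
  have hfl : ∀ i : ℕ, (N : ℝ) ^ (e / 5) ≤ ((U * 2 ^ i : ℕ) : ℝ) := by
    intro i
    refine hU2.trans ?_
    exact_mod_cast Nat.le_mul_of_pos_right U (by positivity)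
  have hII : ∑ m ∈ Mo Q, ∑ i ∈ range I, ∑ l ∈ range I, |∑ a ∈ Ioc (U * 2 ^ i) (2 * (U * 2 ^ i)),
        ∑ b ∈ Ioc (U * 2 ^ l) (2 * (U * 2 ^ l)),
          (if a ≤ x then alpha U a else 0) * (if b ≤ x then beta U b else 0) *
            (cc N c (a * b) * kp R (30 * m) (r m) (a * b))| ≤ (I : ℝ) * ((I : ℝ) * Bd) := by
    rw [sum_comm]
    have k1 : ∀ i ∈ range I, ∑ m ∈ Mo Q, ∑ l ∈ range I, |∑ a ∈ Ioc (U * 2 ^ i) (2 * (U * 2 ^ i)),
        ∑ b ∈ Ioc (U * 2 ^ l) (2 * (U * 2 ^ l)),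
          (if a ≤ x then alpha U a else 0) * (if b ≤ x then beta U b else 0) *
            (cc N c (a * b) * kp R (30 * m) (r m) (a * b))| ≤ (I : ℝ) * Bd := by
      intro i _
      rw [sum_comm]
      have k2 : ∀ l ∈ range I, ∑ m ∈ Mo Q, |∑ a ∈ Ioc (U * 2 ^ i) (2 * (U * 2 ^ i)),
        ∑ b ∈ Ioc (U * 2 ^ l) (2 * (U * 2 ^ l)),
          (if a ≤ x then alpha U a else 0) * (if b ≤ x then beta U b else 0) *
            (cc N c (a * b) * kp R (30 * m) (r m) (a * b))| ≤ Bd := by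
        intro l _
        exact hblock (U * 2 ^ i) (U * 2 ^ l) _ _ (hfl i) (hfl l) f1 f2 (f3 _) (f4 _)
      refine (sum_le_sum k2).trans (le_of_eq ?_)
      rw [sum_const, card_range, nsmul_eq_mul]
    refine (sum_le_sum k1).trans (le_of_eq ?_)
    rw [sum_const, card_range, nsmul_eq_mul]
  have b1 : (#(Mo Q) : ℝ) * ((2 + 4 * T) * (U : ℝ) ^ 2 * (1 + Real.log x)) ≤
      1 / 2 * ((N : ℝ) ^ 3 / L ^ A) := by
    have c1 : (#(Mo Q) : ℝ) ≤ Q := by
      have k1 : #(Mo Q) ≤ ⌊Q⌋₊ := by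
        unfold Mo
        refine (card_filter_le _ _).trans ?_
        rw [Nat.card_Icc]
        simp
      have k2 : ((⌊Q⌋₊ : ℕ) : ℝ) ≤ Q := Nat.floor_le (by positivity)
      exact (by exact_mod_cast k1 : (#(Mo Q) : ℝ) ≤ (⌊Q⌋₊ : ℕ)).trans k2
    have c2 : 2 + 4 * T ≤ (2 + 480 * C₀) * (N : ℝ) ^ (2 - 7 * e / 4) := by
      rw [hT]
      have d1 : (1 : ℝ) ≤ (N : ℝ) ^ (2 - 7 * e / 4) := Real.one_le_rpow hN1r (by linarith)
      nlinarith
    have c3 : (U : ℝ) ^ 2 ≤ (N : ℝ) ^ (e / 2) := by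
      calc (U : ℝ) ^ 2 ≤ ((N : ℝ) ^ (e / 4)) ^ 2 := pow_le_pow_left₀ (by positivity) hUN 2
        _ = (N : ℝ) ^ (e / 2) := by
          rw [← Real.rpow_natCast, ← Real.rpow_mul hN0.le]
          congr 1
          push_cast
          ring
    calc (#(Mo Q) : ℝ) * ((2 + 4 * T) * (U : ℝ) ^ 2 * (1 + Real.log x))
        ≤ Q * (((2 + 480 * C₀) * (N : ℝ) ^ (2 - 7 * e / 4)) * (N : ℝ) ^ (e / 2) *
            (6 * (1 + L))) := by
          have : 0 ≤ 2 + 4 * T := by rw [hT]; positivity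
          gcongr
      _ = 6 * (2 + 480 * C₀) * (1 + L) * (Q * (N : ℝ) ^ (2 - 7 * e / 4) * (N : ℝ) ^ (e / 2)) := by
          ring
      _ = 6 * (2 + 480 * C₀) * (1 + L) * (N : ℝ) ^ ((3 : ℝ) - 13 * e / 4) := by
          rw [hQ, ← Real.rpow_add hN0, ← Real.rpow_add hN0]
          congr 2
          ring
      _ ≤ 1 / 2 * ((N : ℝ) ^ 3 / L ^ A) := by
          have d1 : (N : ℝ) ^ ((3 : ℝ) - 13 * e / 4) = (N : ℝ) ^ 3 / (N : ℝ) ^ (13 * e / 4) := by
            rw [Real.rpow_sub hN0, show (3 : ℝ) = ((3 : ℕ) : ℝ) by norm_num, Real.rpow_natCast]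
          rw [d1]
          have d2 : 0 < (N : ℝ) ^ (13 * e / 4) := by positivity
          have d3 : L ^ A ≤ (1 + L) ^ A := pow_le_pow_left₀ hLpos.le (by linarith) A
          rw [mul_div_assoc', div_le_iff₀ d2]
          have d4 : 1 / 2 * ((N : ℝ) ^ 3 / L ^ A) * (N : ℝ) ^ (13 * e / 4) =
            (N : ℝ) ^ 3 * (1 / 2 * (N : ℝ) ^ (13 * e / 4) / L ^ A) := by ring
          rw [d4, mul_comm _ ((N : ℝ) ^ 3)]
          refine mul_le_mul_of_nonneg_left ?_ (by positivity)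
          rw [le_div_iff₀ (by positivity)]
          have d5 : 12 * (2 + 480 * C₀) * (1 + L) ^ (A + 1) =
              12 * (2 + 480 * C₀) * (1 + L) * (1 + L) ^ A := by
            ring
          rw [d5] at e1
          have d6 : 12 * (2 + 480 * C₀) * (1 + L) * L ^ A ≤
              12 * (2 + 480 * C₀) * (1 + L) * (1 + L) ^ A :=
            mul_le_mul_of_nonneg_left d3 (by positivity)
          linarith
  have b2 : (I : ℝ) * ((I : ℝ) * Bd) ≤ 1 / 2 * ((N : ℝ) ^ 3 / L ^ A) := by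
    have hI0 : (0 : ℝ) ≤ I := Nat.cast_nonneg _
    have c0 : (I : ℝ) * ((I : ℝ) * Bd) ≤ 144 * (1 + L) ^ 2 * Bd := by
      calc (I : ℝ) * ((I : ℝ) * Bd) = (I : ℝ) ^ 2 * Bd := by ring
        _ ≤ (12 * (1 + L)) ^ 2 * Bd :=
          mul_le_mul_of_nonneg_right (pow_le_pow_left₀ hI0 hIr 2) hBd0
        _ = _ := by ring
    have c1 : C * (N : ℝ) ^ 3 * L ^ 5 / R ≤ C * (N : ℝ) ^ 3 * L ^ 5 / L ^ (A + 8) := by
      have : 0 < L ^ (A + 8) := by positivity
      gcongr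
    have c2 : 144 * (1 + L) ^ 2 * (C * (N : ℝ) ^ 3 * L ^ 5 / L ^ (A + 8)) ≤
        1 / 4 * ((N : ℝ) ^ 3 / L ^ A) := by
      have d1 : (1 + L) ^ 2 ≤ (2 * L) ^ 2 := pow_le_pow_left₀ (by positivity) (by linarith) 2
      calc 144 * (1 + L) ^ 2 * (C * (N : ℝ) ^ 3 * L ^ 5 / L ^ (A + 8))
          ≤ 144 * (2 * L) ^ 2 * (C * (N : ℝ) ^ 3 * L ^ 5 / L ^ (A + 8)) := by gcongr
        _ = (N : ℝ) ^ 3 / L ^ A * (576 * C / L) := by
            rw [pow_add L A 8]
            field_simp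
            ring
        _ ≤ (N : ℝ) ^ 3 / L ^ A * (1 / 4) := by
            refine mul_le_mul_of_nonneg_left ?_ hrhs
            rw [div_le_iff₀ hLpos]
            linarith
        _ = _ := by ring
    have c3 : 144 * (1 + L) ^ 2 * (N : ℝ) ^ ((3 : ℝ) - δ) ≤ 1 / 4 * ((N : ℝ) ^ 3 / L ^ A) := by
      have d1 : (N : ℝ) ^ ((3 : ℝ) - δ) = (N : ℝ) ^ 3 / (N : ℝ) ^ δ := by
        rw [Real.rpow_sub hN0, show (3 : ℝ) = ((3 : ℕ) : ℝ) by norm_num, Real.rpow_natCast]
      rw [d1]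
      have d2 : 0 < (N : ℝ) ^ δ := by positivity
      have d3 : L ^ A ≤ (1 + L) ^ A := pow_le_pow_left₀ hLpos.le (by linarith) A
      rw [mul_div_assoc', div_le_iff₀ d2]
      have d4 : 1 / 4 * ((N : ℝ) ^ 3 / L ^ A) * (N : ℝ) ^ δ =
        (N : ℝ) ^ 3 * (1 / 4 * (N : ℝ) ^ δ / L ^ A) := by ring
      rw [d4, mul_comm _ ((N : ℝ) ^ 3)]
      refine mul_le_mul_of_nonneg_left ?_ (by positivity)
      rw [le_div_iff₀ (by positivity)]
      have d5 : 576 * (1 + L) ^ (A + 2) = 576 * (1 + L) ^ 2 * (1 + L) ^ A := by ring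
      rw [d5] at e2
      have d6 : 576 * (1 + L) ^ 2 * L ^ A ≤ 576 * (1 + L) ^ 2 * (1 + L) ^ A :=
        mul_le_mul_of_nonneg_left d3 (by positivity)
      linarith
    have c4 : 144 * (1 + L) ^ 2 * Bd ≤ 144 * (1 + L) ^ 2 * (C * (N : ℝ) ^ 3 * L ^ 5 / L ^ (A + 8)) +
        144 * (1 + L) ^ 2 * (N : ℝ) ^ ((3 : ℝ) - δ) := by
      rw [hBd, ← mul_add]
      exact mul_le_mul_of_nonneg_left (add_le_add c1 le_rfl) (by positivity)
    linarith
  linarith

end Pool.Agent.CH
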