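import Pool.Agent.helper17.CH.SpecV
import Pool.Agent.helper95.MT.GGcrude

/-!
# Project CH, row FS (after helper74/TG/SW7, with an arbitrary power of the logarithm)
-/

set_option autoImplicit false

namespace Pool.Agent.CH

open Finset Real MeasureTheory FourierTransform

/-- FS_kernel function -/
private noncomputable def FS_kf (c : ℝ) : ℝ → ℂ :=
  Set.indicator (Set.Ioi 0) (fun v => Complex.exp (((-c : ℝ) : ℂ) * v) - Complex.exp (((-(c + 1) : ℝ) : ℂ) * v))

private noncomputable def FS_kh (c : ℝ) (ξ : ℝ) : ℂ :=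
  1 / (((c : ℂ) + 2 * π * ξ * Complex.I) * ((c : ℂ) + 1 + 2 * π * ξ * Complex.I))

private lemma FS_kf_int (c : ℝ) (hc : 0 < c) : Integrable (FS_kf c) := by
  unfold FS_kf
  rw [integrable_indicator_iff measurableSet_Ioi]
  exact (integrableOn_exp_mul_complex_Ioi (by simpa using hc) 0).sub
    (integrableOn_exp_mul_complex_Ioi (by simp; linarith) 0)

private lemma FS_kf_cont (c : ℝ) : Continuous (FS_kf c) := by
  unfold FS_kf
  apply Continuous.indicator
  · intro v hv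
    rw [frontier_Ioi] at hv
    simp at hv
    subst hv
    simp
  · fun_prop

private lemma FS_kf_four (c : ℝ) (hc : 0 < c) (ξ : ℝ) : 𝓕 (FS_kf c) ξ = FS_kh c ξ := by
  rw [Real.fourier_real_eq_integral_exp_smul]
  have h1 : ∀ v : ℝ, Complex.exp (↑(-2 * π * v * ξ) * Complex.I) • FS_kf c v =
      Set.indicator (Set.Ioi 0) (fun v : ℝ => Complex.exp ((-((c : ℂ) + 2 * π * ξ * Complex.I)) * v) -
        Complex.exp ((-((c : ℂ) + 1 + 2 * π * ξ * Complex.I)) * v)) v := by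
    intro v
    unfold FS_kf
    by_cases hv : v ∈ Set.Ioi (0 : ℝ)
    · rw [Set.indicator_of_mem hv, Set.indicator_of_mem hv, smul_eq_mul, mul_sub,
        ← Complex.exp_add, ← Complex.exp_add]
      congr 2 <;> (push_cast; ring)
    · rw [Set.indicator_of_notMem hv, Set.indicator_of_notMem hv, smul_zero]
  simp_rw [h1]
  rw [integral_indicator measurableSet_Ioi]
  have r1 : (-((c : ℂ) + 2 * π * ξ * Complex.I)).re < 0 := by
    simp; linarith
  have r2 : (-((c : ℂ) + 1 + 2 * π * ξ * Complex.I)).re < 0 := by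
    simp; linarith
  rw [integral_sub (integrableOn_exp_mul_complex_Ioi r1 0) (integrableOn_exp_mul_complex_Ioi r2 0),
    integral_exp_mul_complex_Ioi r1, integral_exp_mul_complex_Ioi r2]
  have n1 : ((c : ℂ) + 2 * π * ξ * Complex.I) ≠ 0 := by
    intro h; rw [h] at r1; simp at r1
  have n2 : ((c : ℂ) + 1 + 2 * π * ξ * Complex.I) ≠ 0 := by
    intro h; rw [h] at r2; simp at r2
  unfold FS_kh
  simp only [Complex.ofReal_zero, mul_zero, Complex.exp_zero]
  field_simp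
  ring

private lemma FS_kh_norm (c : ℝ) (hc : 1 ≤ c) (ξ : ℝ) : ‖FS_kh c ξ‖ ≤ (1 + ξ ^ 2)⁻¹ := by
  unfold FS_kh
  rw [norm_div, norm_one, one_div, norm_mul]
  have h1 : √(1 + ξ ^ 2) ≤ ‖((c : ℂ) + 2 * π * ξ * Complex.I)‖ := by
    rw [Complex.norm_eq_sqrt_sq_add_sq]
    apply Real.sqrt_le_sqrt
    simp
    have : 1 ≤ c ^ 2 := by nlinarith
    have : ξ ^ 2 ≤ (2 * π * ξ) ^ 2 := by
      have := Real.pi_gt_three
      have h1 : (1 : ℝ) ≤ (2 * π) ^ 2 := by nlinarith
      rw [mul_pow]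
      exact le_mul_of_one_le_left (sq_nonneg ξ) h1
    linarith
  have h2 : √(1 + ξ ^ 2) ≤ ‖((c : ℂ) + 1 + 2 * π * ξ * Complex.I)‖ := by
    rw [Complex.norm_eq_sqrt_sq_add_sq]
    apply Real.sqrt_le_sqrt
    simp
    have : 1 ≤ (c + 1) ^ 2 := by nlinarith
    have : ξ ^ 2 ≤ (2 * π * ξ) ^ 2 := by
      have := Real.pi_gt_three
      have h1 : (1 : ℝ) ≤ (2 * π) ^ 2 := by nlinarith
      rw [mul_pow]
      exact le_mul_of_one_le_left (sq_nonneg ξ) h1
    linarith
  have h3 : (1 + ξ ^ 2) = √(1 + ξ ^ 2) * √(1 + ξ ^ 2) := (Real.mul_self_sqrt (by positivity)).symm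
  apply inv_anti₀ (by positivity)
  rw [h3]
  exact mul_le_mul h1 h2 (Real.sqrt_nonneg _) (norm_nonneg _)

private lemma FS_kh_cont (c : ℝ) (hc : 0 < c) : Continuous (FS_kh c) := by
  unfold FS_kh
  apply Continuous.div continuous_const (by fun_prop)
  intro ξ h
  rcases mul_eq_zero.1 h with h | h <;> have := congrArg Complex.re h <;> simp at this <;> linarith

private lemma FS_kh_int (c : ℝ) (hc : 1 ≤ c) : Integrable (FS_kh c) := by
  refine Integrable.mono' integrable_inv_one_add_sq (FS_kh_cont c (by linarith)).aestronglyMeasurable ?_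
  exact Filter.Eventually.of_forall fun ξ => FS_kh_norm c hc ξ

/-- The FS_kernel identity. -/
private lemma FS_kernel (c : ℝ) (hc : 1 ≤ c) (v : ℝ) :
    ∫ ξ : ℝ, Complex.exp (↑(2 * π * ξ * v) * Complex.I) * FS_kh c ξ = FS_kf c v := by
  have hF : 𝓕 (FS_kf c) = FS_kh c := funext fun ξ => FS_kf_four c (by linarith) ξ
  have h := (FS_kf_cont c).fourierInv_fourier_eq (FS_kf_int c (by linarith)) (by
    rw [hF]; exact FS_kh_int c hc)
  rw [hF] at h
  have h2 := congrFun h v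
  rw [Real.fourierInv_eq'] at h2
  rw [← h2]
  congr 1
  ext ξ
  rw [smul_eq_mul]
  congr 2
  simp
  ring

private lemma FS_term_eq (b : ℕ → ℂ) (σ ξ : ℝ) {n : ℕ} (hn : 0 < n) :
    LSeries.term b ((σ : ℂ) + 2 * π * ξ * Complex.I) n =
      b n * ((n : ℝ) ^ (-σ) : ℝ) * Complex.exp (↑(2 * π * ξ * (-Real.log n)) * Complex.I) := by
  have hn' : (n : ℂ) ≠ 0 := by exact_mod_cast hn.ne'
  rw [LSeries.term_of_ne_zero hn.ne', div_eq_mul_inv, ← Complex.cpow_neg, mul_assoc (b n)]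
  congr 1
  rw [neg_add, Complex.cpow_add _ _ hn', Complex.ofReal_cpow (by positivity)]
  congr 1
  · push_cast; rfl
  · rw [Complex.cpow_def_of_ne_zero hn', Complex.natCast_log.symm]
    congr 1
    push_cast
    ring

private lemma FS_kf_val (σ y : ℝ) (hy : 0 < y) {n : ℕ} (hn : 0 < n) :
    ((n : ℝ) ^ (-σ) : ℝ) * FS_kf σ (Real.log y - Real.log n) =
      if n ≤ ⌊y⌋₊ then ((y ^ (-σ) * (1 - n / y) : ℝ) : ℂ) else 0 := by
  have hn' : (0 : ℝ) < n := by exact_mod_cast hn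
  unfold FS_kf
  split_ifs with h
  · have hny : (n : ℝ) ≤ y := (Nat.le_floor_iff hy.le).1 h
    rcases hny.eq_or_lt with h1 | h1
    · rw [h1, sub_self, Set.indicator_of_notMem (by simp)]
      simp [div_self hy.ne']
    · rw [Set.indicator_of_mem (by
        simpa using Real.log_lt_log hn' h1)]
      rw [← Real.log_div hy.ne' hn'.ne']
      have e1 : Complex.exp (((-σ : ℝ) : ℂ) * (Real.log (y / n) : ℝ)) = (((y / n) ^ (-σ) : ℝ) : ℂ) := by
        rw [Real.rpow_def_of_pos (by positivity)]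
        push_cast
        ring_nf
      have e2 : Complex.exp (((-(σ + 1) : ℝ) : ℂ) * (Real.log (y / n) : ℝ)) =
          (((y / n) ^ (-(σ + 1)) : ℝ) : ℂ) := by
        rw [Real.rpow_def_of_pos (by positivity)]
        push_cast
        ring_nf
      rw [e1, e2, ← Complex.ofReal_sub, ← Complex.ofReal_mul]
      congr 1
      rw [neg_add, Real.rpow_add (by positivity), Real.rpow_neg_one,
        Real.div_rpow hy.le hn'.le]
      have : (n : ℝ) ^ (-σ) ≠ 0 := (Real.rpow_pos_of_pos hn' _).ne'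
      field_simp
  · have hny : y < n := by
      by_contra hcon
      exact h ((Nat.le_floor_iff hy.le).2 (not_lt.1 hcon))
    rw [Set.indicator_of_notMem (by
      simpa using (Real.log_lt_log hy hny).le)]
    simp

/-- The representation of the smoothed sum. -/
private lemma FS_rep (b : ℕ → ℂ) (σ : ℝ) (hσ : 1 ≤ σ)
    (hb : LSeriesSummable b (σ : ℂ)) (y : ℝ) (hy : 0 < y) :
    ∑ n ∈ Ioc 0 ⌊y⌋₊, b n * (1 - n / y : ℝ) = (y ^ σ : ℝ) *
      ∫ ξ : ℝ, Complex.exp (↑(2 * π * ξ * Real.log y) * Complex.I) * FS_kh σ ξ *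
        LSeries b ((σ : ℂ) + 2 * π * ξ * Complex.I) := by
  set F : ℕ → ℝ → ℂ := fun n ξ => Complex.exp (↑(2 * π * ξ * Real.log y) * Complex.I) * FS_kh σ ξ *
    LSeries.term b ((σ : ℂ) + 2 * π * ξ * Complex.I) n with hF
  have hnorm : ∀ n ξ, ‖F n ξ‖ = ‖FS_kh σ ξ‖ * ‖LSeries.term b (σ : ℂ) n‖ := by
    intro n ξ
    rw [hF]
    simp only [norm_mul, Complex.norm_exp_ofReal_mul_I, one_mul]
    congr 1
    rw [LSeries.norm_term_eq, LSeries.norm_term_eq]
    simp
  have hcont : ∀ n, Continuous (F n) := by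
    intro n
    rcases Nat.eq_zero_or_pos n with h | h
    · subst h
      simp only [hF, LSeries.term_zero, mul_zero]
      exact continuous_const
    · simp only [hF]
      simp_rw [FS_term_eq b σ _ h]
      have := FS_kh_cont σ (by linarith)
      fun_prop
  have hint : ∀ n, Integrable (F n) := by
    intro n
    refine Integrable.mono' ((FS_kh_int σ hσ).norm.mul_const ‖LSeries.term b (σ : ℂ) n‖)
      (hcont n).aestronglyMeasurable (Filter.Eventually.of_forall fun ξ => ?_)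
    rw [hnorm]
  have hsum : Summable fun n => ∫ ξ, ‖F n ξ‖ := by
    simp_rw [hnorm, integral_mul_const]
    exact hb.norm.mul_left _
  have h1 := hasSum_integral_of_summable_integral_norm hint hsum
  have h2 : ∀ ξ, ∑' n, F n ξ = Complex.exp (↑(2 * π * ξ * Real.log y) * Complex.I) * FS_kh σ ξ *
      LSeries b ((σ : ℂ) + 2 * π * ξ * Complex.I) := by
    intro ξ
    simp only [hF]
    rw [tsum_mul_left]
    rfl
  simp_rw [h2] at h1
  have h3 : ∀ n, ∫ ξ, F n ξ = if n ∈ Ioc 0 ⌊y⌋₊ then b n * ((y ^ (-σ) * (1 - n / y) : ℝ) : ℂ) else 0 := by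
    intro n
    rcases Nat.eq_zero_or_pos n with h | h
    · subst h
      simp [hF]
    · have e : ∀ ξ, F n ξ = (b n * ((n : ℝ) ^ (-σ) : ℝ)) *
          (Complex.exp (↑(2 * π * ξ * (Real.log y - Real.log n)) * Complex.I) * FS_kh σ ξ) := by
        intro ξ
        simp only [hF]
        rw [FS_term_eq b σ ξ h]
        have : Complex.exp (↑(2 * π * ξ * (Real.log y - Real.log n)) * Complex.I) =
            Complex.exp (↑(2 * π * ξ * Real.log y) * Complex.I) *
            Complex.exp (↑(2 * π * ξ * (-Real.log n)) * Complex.I) := by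
          rw [← Complex.exp_add]
          congr 1
          push_cast
          ring
        rw [this]
        ring
      simp_rw [e]
      rw [integral_const_mul, FS_kernel σ hσ, mul_assoc, FS_kf_val σ y hy h]
      by_cases hn : n ≤ ⌊y⌋₊
      · rw [if_pos hn, if_pos (mem_Ioc.2 ⟨h, hn⟩)]
      · rw [if_neg hn, if_neg (by simp [hn]), mul_zero]
  simp_rw [h3] at h1
  have h4 := (hasSum_sum_of_ne_finset_zero (s := Ioc 0 ⌊y⌋₊) (f := fun n =>
    if n ∈ Ioc 0 ⌊y⌋₊ then b n * ((y ^ (-σ) * (1 - n / y) : ℝ) : ℂ) else 0) (by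
      intro n hn
      rw [if_neg hn])).unique h1
  rw [← h4, mul_sum]
  apply sum_congr rfl
  intro n hn
  rw [if_pos hn]
  have : (y ^ σ) * (y ^ (-σ)) = 1 := by
    rw [← Real.rpow_add hy, add_neg_cancel, Real.rpow_zero]
  have h5 : ((y ^ σ : ℝ) : ℂ) * ((y ^ (-σ) : ℝ) : ℂ) = 1 := by
    rw [← Complex.ofReal_mul, this, Complex.ofReal_one]
  push_cast at h5 ⊢
  linear_combination (-(b n * (1 - (n : ℂ) / y))) * h5

private lemma FS_ind_le (ξ R : ℝ) (hR : 1 ≤ R) (h : R < |ξ|) :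
    (1 + ξ ^ 2)⁻¹ ≤ 2 / R ^ 2 * (1 + (ξ / R) ^ 2)⁻¹ := by
  have h1 : R ^ 2 ≤ ξ ^ 2 := by
    rw [← sq_abs ξ]
    exact pow_le_pow_left₀ (by linarith) h.le 2
  have hR0 : 0 < R := by linarith
  rw [div_pow, div_mul_eq_mul_div, ← div_eq_mul_inv, div_div, inv_eq_one_div,
    div_le_div_iff₀ (by positivity) (by positivity)]
  have : R ^ 2 * (1 + ξ ^ 2 / R ^ 2) = R ^ 2 + ξ ^ 2 := by field_simp
  nlinarith

private lemma FS_int_bound (σ : ℝ) (hσ : 1 ≤ σ) (G : ℝ → ℂ) (R U V : ℝ) (hR : 1 ≤ R) (hU : 0 ≤ U)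
    (hV : 0 ≤ V) (h1 : ∀ ξ, |ξ| ≤ R → ‖G ξ‖ ≤ U) (h2 : ∀ ξ, ‖G ξ‖ ≤ V) (v : ℝ) :
    ‖∫ ξ : ℝ, Complex.exp (↑(2 * π * ξ * v) * Complex.I) * FS_kh σ ξ * G ξ‖ ≤
      π * U + 2 * π * V / R := by
  have hR0 : 0 < R := by linarith
  have hg1 : Integrable fun ξ : ℝ => U * (1 + ξ ^ 2)⁻¹ := integrable_inv_one_add_sq.const_mul U
  have hg2 : Integrable fun ξ : ℝ => V * (2 / R ^ 2) * (1 + (ξ / R) ^ 2)⁻¹ :=
    (integrable_inv_one_add_sq.comp_div hR0.ne').const_mul _
  have hval : ∫ ξ : ℝ, (U * (1 + ξ ^ 2)⁻¹ + V * (2 / R ^ 2) * (1 + (ξ / R) ^ 2)⁻¹) =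
      π * U + 2 * π * V / R := by
    rw [integral_add hg1 hg2, integral_const_mul, integral_const_mul,
      integral_univ_inv_one_add_sq,
      Measure.integral_comp_div (fun ξ : ℝ => (1 + ξ ^ 2)⁻¹) R, integral_univ_inv_one_add_sq,
      abs_of_pos hR0, smul_eq_mul]
    field_simp
  rw [← hval]
  apply norm_integral_le_of_norm_le (hg1.add hg2)
  refine Filter.Eventually.of_forall fun ξ => ?_
  rw [norm_mul, norm_mul, Complex.norm_exp_ofReal_mul_I, one_mul]
  have hk := FS_kh_norm σ hσ ξ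
  have hp : (0 : ℝ) < (1 + ξ ^ 2)⁻¹ := by positivity
  have hp2 : (0 : ℝ) < (1 + (ξ / R) ^ 2)⁻¹ := by positivity
  by_cases hξ : |ξ| ≤ R
  · calc ‖FS_kh σ ξ‖ * ‖G ξ‖ ≤ (1 + ξ ^ 2)⁻¹ * U := mul_le_mul hk (h1 ξ hξ) (norm_nonneg _) hp.le
      _ ≤ U * (1 + ξ ^ 2)⁻¹ + V * (2 / R ^ 2) * (1 + (ξ / R) ^ 2)⁻¹ := by
        have : 0 ≤ V * (2 / R ^ 2) * (1 + (ξ / R) ^ 2)⁻¹ := by positivity
        linarith [mul_comm U (1 + ξ ^ 2)⁻¹]
  · have h3 := FS_ind_le ξ R hR (not_le.1 hξ)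
    calc ‖FS_kh σ ξ‖ * ‖G ξ‖ ≤ (1 + ξ ^ 2)⁻¹ * V := mul_le_mul hk (h2 ξ) (norm_nonneg _) hp.le
      _ ≤ (2 / R ^ 2 * (1 + (ξ / R) ^ 2)⁻¹) * V := mul_le_mul_of_nonneg_right h3 hV
      _ ≤ U * (1 + ξ ^ 2)⁻¹ + V * (2 / R ^ 2) * (1 + (ξ / R) ^ 2)⁻¹ := by
        have : 0 ≤ U * (1 + ξ ^ 2)⁻¹ := by positivity
        nlinarith

/-- Abel's inequality. -/
private lemma FS_abel (a : ℕ → ℂ) (w : ℕ → ℝ) (Y X : ℕ) (hw : ∀ n, Y < n → n < X → w (n + 1) ≤ w n)
    (hw0 : ∀ n, Y < n → 0 ≤ w n) (E : ℝ) (hE : ∀ m, Y ≤ m → m ≤ X → ‖∑ n ∈ Ioc Y m, a n‖ ≤ E)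
    (hYX : Y < X) : ‖∑ n ∈ Ioc Y X, a n * w n‖ ≤ E * w (Y + 1) := by
  have key : ∀ m, Y < m → m ≤ X → ∑ n ∈ Ioc Y m, a n * w n =
      w m * ∑ n ∈ Ioc Y m, a n + ∑ k ∈ Ioo Y m, ((w k - w (k + 1) : ℝ) : ℂ) * ∑ n ∈ Ioc Y k, a n := by
    intro m hm
    induction m, hm using Nat.le_induction with
    | base =>
      intro _
      have : Ioo Y (Y + 1) = ∅ := by
        ext k; simp only [mem_Ioo, Finset.notMem_empty, iff_false]; omega
      rw [this, Nat.Ioc_succ_singleton]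
      simp [mul_comm]
    | succ m hm ih =>
      intro hmX
      have hm' : Y < m := hm
      rw [← Finset.sum_Ioc_consecutive _ hm'.le (Nat.le_succ m), Nat.Ioc_succ_singleton,
        sum_singleton, ih (by omega), ← Finset.sum_Ioc_consecutive a hm'.le (Nat.le_succ m),
        Nat.Ioc_succ_singleton, sum_singleton]
      have h3 : Ioo Y (m + 1) = insert m (Ioo Y m) := by
        ext k; simp; omega
      rw [h3, sum_insert (by simp)]
      push_cast
      ring
  rw [key X hYX le_rfl]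
  have hE0 : 0 ≤ E := (norm_nonneg _).trans (hE Y le_rfl hYX.le)
  have tel : ∀ m, Y < m → ∑ k ∈ Ioo Y m, (w k - w (k + 1)) = w (Y + 1) - w m := by
    intro m hm
    induction m, hm using Nat.le_induction with
    | base =>
      have : Ioo Y (Y + 1) = ∅ := by
        ext k; simp only [mem_Ioo, Finset.notMem_empty, iff_false]; omega
      rw [this]; simp
    | succ m hm ih =>
      have h3 : Ioo Y (m + 1) = insert m (Ioo Y m) := by
        ext k; simp; omega
      rw [h3, sum_insert (by simp), ih]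
      ring
  calc ‖(w X : ℂ) * ∑ n ∈ Ioc Y X, a n + ∑ k ∈ Ioo Y X, ((w k - w (k + 1) : ℝ) : ℂ) *
          ∑ n ∈ Ioc Y k, a n‖
      ≤ w X * E + ∑ k ∈ Ioo Y X, (w k - w (k + 1)) * E := by
        refine (norm_add_le _ _).trans (add_le_add ?_ ((norm_sum_le _ _).trans (sum_le_sum ?_)))
        · rw [norm_mul, Complex.norm_real, Real.norm_of_nonneg (hw0 X hYX)]
          exact mul_le_mul_of_nonneg_left (hE X hYX.le le_rfl) (hw0 X hYX)
        · intro k hk
          rw [mem_Ioo] at hk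
          have : 0 ≤ w k - w (k + 1) := sub_nonneg.2 (hw k hk.1 hk.2)
          rw [norm_mul, Complex.norm_real, Real.norm_of_nonneg this]
          exact mul_le_mul_of_nonneg_left (hE k hk.1.le hk.2.le) this
    _ = E * w (Y + 1) := by
        rw [← sum_mul, tel X hYX]
        ring

private lemma FS_smooth (m K : ℕ) (hm : 1 ≤ m) : ∃ (C x₀ : ℝ), 0 < C ∧ ∀ x : ℝ, x₀ ≤ x →
    ∀ b : ℕ → ℂ,
    (∀ n, 2 ≤ n → ‖b n‖ ≤ 3 * Real.log n ^ (K + 1)) → ‖b 1‖ ≤ 1 →
    (∀ t : ℝ, |t| ≤ Real.log x ^ m →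
      ‖LSeries b (1 + 1 / (Real.log x : ℂ) + t * Complex.I)‖ ≤ Real.log x ^ K / Real.log x ^ m) →
    ∀ y : ℝ, 0 < y → y ≤ 2 * x →
    ‖∑ n ∈ Ioc 0 ⌊y⌋₊, b n * (1 - n / y : ℝ)‖ ≤ C * y * (Real.log x ^ (K + 2) / Real.log x ^ m) := by
  set V₁ : ℝ := 3 * (((K + 1).factorial : ℝ) * 2 ^ (K + 1) * 3) + 1 with hV₁
  refine ⟨6 * (π + 4 * π ^ 2 * V₁), Real.exp (2 * π), by positivity, ?_⟩
  intro x hx b hb hb1 hF y hy0 hy
  set L := Real.log x with hL
  have hx0 : 0 < x := (Real.exp_pos _).trans_le hx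
  have hL2 : 2 * π ≤ L := by
    rw [hL, Real.le_log_iff_exp_le hx0]; exact hx
  have hpi := Real.pi_gt_three
  have hL1 : 1 ≤ L := by linarith
  have hL0 : 0 < L := by linarith
  set σ : ℝ := 1 + 1 / L with hσ
  have hσ1 : 1 < σ := by rw [hσ]; have : 0 < 1 / L := by positivity
                         linarith
  -- the trivial bound
  let b' : ℕ → ℂ := fun n => if 2 ≤ n then b n / 3 else 0
  have hb' : ∀ n, ‖b' n‖ ≤ Real.log n ^ (K + 1) := by
    intro n
    by_cases h : 2 ≤ n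
    · have h1 : b' n = b n / 3 := if_pos h
      rw [h1, norm_div, Complex.norm_ofNat, div_le_iff₀ (by norm_num)]
      linarith [hb n h]
    · have h1 : b' n = 0 := if_neg h
      rw [h1, norm_zero]
      exact pow_nonneg (Real.log_natCast_nonneg n) _
  have hterm : ∀ (s : ℂ) (n : ℕ), LSeries.term b s n =
      3 * LSeries.term b' s n + (if n = 1 then b 1 else 0) := by
    intro s n
    rcases Nat.eq_zero_or_pos n with h0 | h0
    · subst h0
      simp
    · rw [LSeries.term_of_ne_zero h0.ne', LSeries.term_of_ne_zero h0.ne']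
      by_cases h : 2 ≤ n
      · have h1 : b' n = b n / 3 := if_pos h
        rw [h1, if_neg (by omega), add_zero]
        ring
      · have h1 : b' n = 0 := if_neg h
        have h2 : n = 1 := by omega
        rw [h1, if_pos h2, h2]
        simp
  have hsumm : ∀ s : ℂ, 1 < s.re → LSeriesSummable b s := by
    intro s hs
    have h1 := Pool.Agent.helper39.MT.h95_summable (K + 1) hb' (s := s) hs
    have h2 : Summable fun n : ℕ => 3 * LSeries.term b' s n + (if n = 1 then b 1 else 0) :=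
      (Summable.mul_left 3 h1).add (hasSum_ite_eq 1 (b 1)).summable
    have h3 : LSeries.term b s = fun n : ℕ => 3 * LSeries.term b' s n + (if n = 1 then b 1 else 0) :=
      funext fun n => hterm s n
    unfold LSeriesSummable
    rw [h3]
    exact h2
  have hsum : LSeriesSummable b (σ : ℂ) := hsumm _ (by simpa using hσ1)
  have hV : ∀ ξ : ℝ, ‖LSeries b ((σ : ℂ) + 2 * π * ξ * Complex.I)‖ ≤ V₁ * L ^ (K + 2) := by
    intro ξ
    have h1 := Pool.Agent.helper39.MT.h95_LSeries_le (K + 1) hb'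
      (s := ((σ : ℂ) + 2 * π * ξ * Complex.I)) (δ := 1 / L) (by positivity) (by simp [hσ])
    have hs := Pool.Agent.helper39.MT.h95_summable (K + 1) hb'
      (s := ((σ : ℂ) + 2 * π * ξ * Complex.I)) (by simpa using hσ1)
    have h2 : LSeries b ((σ : ℂ) + 2 * π * ξ * Complex.I) =
        3 * LSeries b' ((σ : ℂ) + 2 * π * ξ * Complex.I) + b 1 := by
      unfold LSeries
      rw [tsum_congr (hterm _), (Summable.mul_left 3 hs).tsum_add (hasSum_ite_eq 1 (b 1)).summable,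
        tsum_mul_left, tsum_ite_eq]
    rw [h2]
    have h3 : ‖LSeries b' ((σ : ℂ) + 2 * π * ξ * Complex.I)‖ ≤
        ((K + 1).factorial : ℝ) * (2 / (1 / L)) ^ (K + 1) * (2 / (1 / L) + 1) :=
      (norm_tsum_le_tsum_norm hs.norm).trans h1
    have h4 : (2 : ℝ) / (1 / L) = 2 * L := by field_simp
    rw [h4, mul_pow] at h3
    have h5 : (1 : ℝ) ≤ L ^ (K + 2) := one_le_pow₀ hL1
    calc ‖3 * LSeries b' ((σ : ℂ) + 2 * π * ξ * Complex.I) + b 1‖
        ≤ ‖3 * LSeries b' ((σ : ℂ) + 2 * π * ξ * Complex.I)‖ + ‖b 1‖ := norm_add_le _ _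
      _ = 3 * ‖LSeries b' ((σ : ℂ) + 2 * π * ξ * Complex.I)‖ + ‖b 1‖ := by
          rw [norm_mul, Complex.norm_ofNat]
      _ ≤ 3 * (((K + 1).factorial : ℝ) * (2 ^ (K + 1) * L ^ (K + 1)) * (2 * L + 1)) +
          L ^ (K + 2) := by linarith
      _ ≤ 3 * (((K + 1).factorial : ℝ) * (2 ^ (K + 1) * L ^ (K + 1)) * (3 * L)) +
          L ^ (K + 2) := by
          gcongr; linarith
      _ = V₁ * L ^ (K + 2) := by rw [hV₁]; ring
  set R : ℝ := L ^ m / (2 * π) with hR
  have hR1 : 1 ≤ R := by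
    rw [hR, le_div_iff₀ (by positivity), one_mul]
    calc 2 * π ≤ L := hL2
      _ = L ^ 1 := (pow_one L).symm
      _ ≤ L ^ m := pow_le_pow_right₀ hL1 hm
  have hU : ∀ ξ : ℝ, |ξ| ≤ R → ‖LSeries b ((σ : ℂ) + 2 * π * ξ * Complex.I)‖ ≤ L ^ K / L ^ m := by
    intro ξ hξ
    have h1 := hF (2 * π * ξ) (by
      rw [abs_mul, abs_of_pos (by positivity : (0 : ℝ) < 2 * π)]
      rw [hR, le_div_iff₀ (by positivity)] at hξ
      linarith)
    have e : (1 + 1 / (L : ℂ) + ((2 * π * ξ : ℝ) : ℂ) * Complex.I) =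
        ((σ : ℂ) + 2 * π * ξ * Complex.I) := by
      rw [hσ]; push_cast; ring
    rwa [e] at h1
  have hmain := FS_int_bound σ hσ1.le (fun ξ => LSeries b ((σ : ℂ) + 2 * π * ξ * Complex.I)) R
    (L ^ K / L ^ m) (V₁ * L ^ (K + 2)) hR1 (by positivity) (by positivity) hU hV (Real.log y)
  rw [FS_rep b σ hσ1.le hsum y hy0, norm_mul, Complex.norm_real,
    Real.norm_of_nonneg (Real.rpow_nonneg hy0.le _)]
  have h5 : 2 * π * (V₁ * L ^ (K + 2)) / R = 4 * π ^ 2 * V₁ * (L ^ (K + 2) / L ^ m) := by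
    rw [hR]; field_simp; ring
  rw [h5] at hmain
  have h6 : y ^ σ ≤ 6 * y := by
    rw [hσ, Real.rpow_add hy0, Real.rpow_one, mul_comm]
    apply mul_le_mul_of_nonneg_right _ hy0.le
    calc y ^ (1 / L) ≤ (2 * x) ^ (1 / L) := Real.rpow_le_rpow hy0.le hy (by positivity)
      _ = 2 ^ (1 / L) * x ^ (1 / L) := Real.mul_rpow (by norm_num) hx0.le
      _ ≤ 2 * 3 := by
        apply mul_le_mul _ _ (Real.rpow_nonneg hx0.le _) (by norm_num)
        · calc (2 : ℝ) ^ (1 / L) ≤ 2 ^ (1 : ℝ) :=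
              Real.rpow_le_rpow_of_exponent_le (by norm_num) (by
                rw [div_le_one hL0]; exact hL1)
            _ = 2 := Real.rpow_one 2
        · rw [Real.rpow_def_of_pos hx0, ← hL, mul_one_div_cancel hL0.ne']
          linarith [Real.exp_one_lt_d9]
      _ = 6 := by norm_num
  have h7 : π * (L ^ K / L ^ m) ≤ π * (L ^ (K + 2) / L ^ m) := by
    have h8 : L ^ K ≤ L ^ (K + 2) := pow_le_pow_right₀ hL1 (by omega)
    gcongr
  calc y ^ σ * _ ≤ (6 * y) * (π * (L ^ K / L ^ m) + 4 * π ^ 2 * V₁ * (L ^ (K + 2) / L ^ m)) :=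
        mul_le_mul h6 hmain (norm_nonneg _) (by positivity)
    _ ≤ (6 * y) * (π * (L ^ (K + 2) / L ^ m) + 4 * π ^ 2 * V₁ * (L ^ (K + 2) / L ^ m)) := by gcongr
    _ = 6 * (π + 4 * π ^ 2 * V₁) * y * (L ^ (K + 2) / L ^ m) := by ring

private lemma FS_sharp (A K : ℕ) : ∃ (C x₀ : ℝ), 0 < C ∧ ∀ x : ℝ, x₀ ≤ x → ∀ b : ℕ → ℂ,
    (∀ n, 2 ≤ n → ‖b n‖ ≤ 3 * Real.log n ^ (K + 1)) → ‖b 1‖ ≤ 1 →
    (∀ t : ℝ, |t| ≤ Real.log x ^ (2 * A + 6) →
      ‖LSeries b (1 + 1 / (Real.log x : ℂ) + t * Complex.I)‖ ≤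
        Real.log x ^ K / Real.log x ^ (2 * A + 6)) →
    ∀ m : ℕ, (m : ℝ) ≤ x → ‖∑ n ∈ Ioc 0 m, b n‖ ≤
      C * x * (Real.log x ^ (K + 1) / Real.log x ^ (A + 2)) := by
  obtain ⟨C, x₀, hC, h⟩ := FS_smooth (2 * A + 6) K (by omega)
  refine ⟨5 * C + 3 * 2 ^ (K + 1), max x₀ (Real.exp 1), by positivity, ?_⟩
  intro x hx b hb hb1 hF m hm
  have hx1 : Real.exp 1 ≤ x := (le_max_right _ _).trans hx
  have hx0 : 0 < x := (Real.exp_pos _).trans_le hx1
  set L := Real.log x with hL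
  have hL1 : 1 ≤ L := by rw [hL, Real.le_log_iff_exp_le hx0]; exact hx1
  have hL0 : 0 < L := by linarith
  rcases Nat.eq_zero_or_pos m with h0 | h0
  · subst h0; simp; positivity
  have hm0 : (0 : ℝ) < m := by exact_mod_cast h0
  have hLA : (1 : ℝ) ≤ L ^ (A + 2) := one_le_pow₀ hL1
  set η : ℝ := m / L ^ (A + 2) with hη
  have hη0 : 0 < η := by positivity
  have hηm : η ≤ m := div_le_self hm0.le hLA
  have hfl : ⌊(m : ℝ) + η⌋₊ = m + ⌊η⌋₊ := by
    rw [add_comm, Nat.floor_add_natCast hη0.le, add_comm]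
  have h1 := h x ((le_max_left _ _).trans hx) b hb hb1 hF m hm0 (by linarith)
  have h2 := h x ((le_max_left _ _).trans hx) b hb hb1 hF (m + η) (by positivity) (by linarith)
  rw [Nat.floor_natCast] at h1
  rw [hfl] at h2
  set S1 := ∑ n ∈ Ioc 0 m, b n * (1 - n / m : ℝ) with hS1
  set S2 := ∑ n ∈ Ioc 0 (m + ⌊η⌋₊), b n * (1 - n / (m + η) : ℝ) with hS2
  have key : (η : ℂ) * ∑ n ∈ Ioc 0 m, b n = ((m + η : ℝ) : ℂ) * S2 - (m : ℂ) * S1 -
      ∑ n ∈ Ioc m (m + ⌊η⌋₊), b n * ((m + η - n : ℝ) : ℂ) := by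
    rw [hS1, hS2, mul_sum, mul_sum, mul_sum, ← sum_Ioc_consecutive _ (Nat.zero_le m)
      (Nat.le_add_right m ⌊η⌋₊)]
    have e1 : ∑ n ∈ Ioc m (m + ⌊η⌋₊), ((m + η : ℝ) : ℂ) * (b n * ((1 - n / (m + η) : ℝ) : ℂ)) =
        ∑ n ∈ Ioc m (m + ⌊η⌋₊), b n * ((m + η - n : ℝ) : ℂ) := by
      apply sum_congr rfl
      intro n _
      have : ((m + η - n : ℝ) : ℂ) = ((m + η : ℝ) : ℂ) * ((1 - n / (m + η) : ℝ) : ℂ) := by
        rw [← Complex.ofReal_mul]
        congr 1
        have : (m : ℝ) + η ≠ 0 := by positivity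
        field_simp
      rw [this]; ring
    rw [e1, add_sub_right_comm, add_sub_cancel_right, ← sum_sub_distrib]
    apply sum_congr rfl
    intro n _
    have e2 : ((m + η : ℝ) : ℂ) * ((1 - n / (m + η) : ℝ) : ℂ) = ((m + η - n : ℝ) : ℂ) := by
      rw [← Complex.ofReal_mul]
      congr 1
      have : (m : ℝ) + η ≠ 0 := by positivity
      field_simp
    have e3 : (m : ℂ) * ((1 - n / m : ℝ) : ℂ) = ((m - n : ℝ) : ℂ) := by
      rw [← Complex.ofReal_natCast, ← Complex.ofReal_mul]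
      congr 1
      field_simp
    have e4 : ((m + η - n : ℝ) : ℂ) - ((m - n : ℝ) : ℂ) = (η : ℂ) := by push_cast; ring
    linear_combination (-b n) * e4 + (-b n) * e2 + b n * e3
  have hB : ‖∑ n ∈ Ioc m (m + ⌊η⌋₊), b n * ((m + η - n : ℝ) : ℂ)‖ ≤
      η * (3 * (2 * L) ^ (K + 1)) * η := by
    refine (norm_sum_le _ _).trans ?_
    calc ∑ n ∈ Ioc m (m + ⌊η⌋₊), ‖b n * ((m + η - n : ℝ) : ℂ)‖
        ≤ ∑ n ∈ Ioc m (m + ⌊η⌋₊), (3 * (2 * L) ^ (K + 1)) * η := by
          apply sum_le_sum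
          intro n hn
          rw [mem_Ioc] at hn
          have hn1 : (m : ℝ) < n := by exact_mod_cast hn.1
          have hn2 : (n : ℝ) ≤ m + η := by
            have : (n : ℝ) ≤ ((m + ⌊η⌋₊ : ℕ) : ℝ) := by exact_mod_cast hn.2
            push_cast at this
            linarith [Nat.floor_le hη0.le]
          rw [norm_mul, Complex.norm_real, Real.norm_of_nonneg (by linarith)]
          apply mul_le_mul _ (by linarith) (by linarith) (by positivity)
          refine (hb n (by omega)).trans ?_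
          have hln0 : 0 ≤ Real.log n := Real.log_natCast_nonneg n
          have hln : Real.log n ≤ 2 * L := by
            calc Real.log n ≤ Real.log (2 * x) := Real.log_le_log (by linarith) (by linarith)
              _ = Real.log 2 + L := by rw [Real.log_mul (by norm_num) hx0.ne']
              _ ≤ 2 * L := by linarith [Real.log_two_lt_d9]
          gcongr
      _ = (⌊η⌋₊ : ℝ) * ((3 * (2 * L) ^ (K + 1)) * η) := by
          rw [sum_const, Nat.card_Ioc, nsmul_eq_mul]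
          simp
      _ ≤ η * ((3 * (2 * L) ^ (K + 1)) * η) := by
          gcongr
          exact Nat.floor_le hη0.le
      _ = _ := by ring
  set W := L ^ (K + 2) / L ^ (2 * A + 6) with hW
  have hW0 : 0 < W := by positivity
  have hWL : W * L ^ (A + 2) ≤ L ^ (K + 1) / L ^ (A + 2) := by
    have e : L ^ (2 * A + 6) = L ^ (A + 2) * L ^ (A + 2) * (L * L) := by
      rw [← pow_add, ← pow_two L, ← pow_add]; congr 1; omega
    have e2 : L ^ (K + 2) = L ^ (K + 1) * L := pow_succ _ _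
    have e3 : W * L ^ (A + 2) = L ^ (K + 1) / L ^ (A + 2) / L := by
      rw [hW, e, e2]; field_simp
    rw [e3]
    exact div_le_self (by positivity) hL1
  have hfin : η * ‖∑ n ∈ Ioc 0 m, b n‖ ≤
      η * ((5 * C + 3 * 2 ^ (K + 1)) * x * (L ^ (K + 1) / L ^ (A + 2))) := by
    calc η * ‖∑ n ∈ Ioc 0 m, b n‖ = ‖(η : ℂ) * ∑ n ∈ Ioc 0 m, b n‖ := by
          rw [norm_mul, Complex.norm_real, Real.norm_of_nonneg hη0.le]
      _ ≤ (m + η) * ‖S2‖ + m * ‖S1‖ + η * (3 * (2 * L) ^ (K + 1)) * η := by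
          rw [key]
          refine (norm_sub_le _ _).trans (add_le_add ((norm_sub_le _ _).trans (add_le_add ?_ ?_)) hB)
          · rw [norm_mul, Complex.norm_real, Real.norm_of_nonneg (by positivity)]
          · rw [norm_mul, Complex.norm_natCast]
      _ ≤ (m + η) * (C * (m + η) * W) + m * (C * m * W) +
          η * (3 * (2 * L) ^ (K + 1)) * η := by gcongr
      _ ≤ (2 * m) * (C * (2 * m) * W) + m * (C * m * W) +
          η * (3 * (2 * L) ^ (K + 1)) * η := by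
            have : (m : ℝ) + η ≤ 2 * m := by linarith
            gcongr
      _ = η * (5 * C * m * (W * L ^ (A + 2)) +
            3 * 2 ^ (K + 1) * m * (L ^ (K + 1) / L ^ (A + 2))) := by
          rw [mul_pow, hη]
          field_simp
          ring
      _ ≤ η * (5 * C * x * (L ^ (K + 1) / L ^ (A + 2)) +
            3 * 2 ^ (K + 1) * x * (L ^ (K + 1) / L ^ (A + 2))) := by
          gcongr
      _ = _ := by ring
  exact le_of_mul_le_mul_left hfin hη0

/-- Row FS: from bounds of the Dirichlet series to bounds of the partial sums. -/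
theorem FS : FS_stmt := by
  intro A
  refine ⟨2 * A + 6, ?_⟩
  intro K
  obtain ⟨C, x₀, hC, h⟩ := FS_sharp A K
  have hlim : ∀ᶠ L : ℝ in Filter.atTop, (A + 1 : ℝ) * Real.log L ≤ L / 2 := by
    have := (Asymptotics.isLittleO_iff.1 Real.isLittleO_log_id_atTop) (show (0 : ℝ) < 1 / (2 * (A + 1)) by positivity)
    filter_upwards [this, Filter.eventually_ge_atTop 1] with L hL hL1
    rw [Real.norm_of_nonneg (Real.log_nonneg hL1), id, Real.norm_of_nonneg (by linarith)] at hL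
    calc (A + 1 : ℝ) * Real.log L ≤ (A + 1 : ℝ) * (1 / (2 * (A + 1)) * L) := by gcongr
      _ = L / 2 := by field_simp
  obtain ⟨L₀, hL₀⟩ := Filter.eventually_atTop.1 hlim
  refine ⟨2 + 2 * C * 2 ^ K, max x₀ (Real.exp (max L₀ 2)), by positivity, ?_⟩
  intro x hx a ha hF
  have hx1 : Real.exp (max L₀ 2) ≤ x := (le_max_right _ _).trans hx
  have hx0 : 0 < x := (Real.exp_pos _).trans_le hx1
  set L := Real.log x with hL
  have hLm : max L₀ 2 ≤ L := by rw [hL, Real.le_log_iff_exp_le hx0]; exact hx1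
  have hL2 : 2 ≤ L := (le_max_right _ _).trans hLm
  have hL0 : 0 < L := by linarith
  have hlogL := hL₀ L ((le_max_left _ _).trans hLm)
  set b : ℕ → ℂ := fun n => a n * (Real.log n : ℂ) ^ K with hbdef
  have hb : ∀ n, 2 ≤ n → ‖b n‖ ≤ 3 * Real.log n ^ (K + 1) := by
    intro n h2
    rw [hbdef]
    simp only [norm_mul, norm_pow, Complex.norm_real]
    rw [Real.norm_of_nonneg (Real.log_natCast_nonneg n)]
    have h3 : Real.log 2 ≤ Real.log n := Real.log_le_log (by norm_num) (by exact_mod_cast h2)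
    have h4 := Real.log_two_gt_d9
    have h5 : 0 ≤ Real.log n := by linarith
    calc ‖a n‖ * Real.log n ^ K ≤ (1 + Real.log n) * Real.log n ^ K := by gcongr; exact ha n
      _ ≤ (3 * Real.log n) * Real.log n ^ K := by gcongr; linarith
      _ = 3 * Real.log n ^ (K + 1) := by ring
  have hb1 : ‖b 1‖ ≤ 1 := by
    have h1 := ha 1
    rw [Nat.cast_one, Real.log_one, add_zero] at h1
    rw [hbdef]
    simp only [norm_mul, norm_pow, Complex.norm_real, Nat.cast_one, Real.log_one, norm_zero]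
    calc ‖a 1‖ * 0 ^ K ≤ 1 * 1 := mul_le_mul h1 (pow_le_one₀ le_rfl zero_le_one) (by positivity)
          zero_le_one
      _ = 1 := one_mul 1
  have hB := h x ((le_max_left _ _).trans hx) b hb hb1 hF
  set X := ⌊x⌋₊ with hX
  set Y := ⌊x / L ^ (A + 1)⌋₊ with hY
  have hXx : (X : ℝ) ≤ x := Nat.floor_le hx0.le
  have hYx : (Y : ℝ) ≤ x / L ^ (A + 1) := Nat.floor_le (by positivity)
  have hLA : (1 : ℝ) ≤ L ^ (A + 1) := one_le_pow₀ (by linarith)
  have hYX : Y ≤ X := Nat.floor_le_floor (div_le_self hx0.le hLA)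
  -- the trivial part
  have hYtriv : ‖∑ n ∈ Ioc 0 Y, a n‖ ≤ 2 * x / L ^ A := by
    refine (norm_sum_le _ _).trans ?_
    calc ∑ n ∈ Ioc 0 Y, ‖a n‖ ≤ ∑ n ∈ Ioc 0 Y, (2 * L) := by
          apply sum_le_sum
          intro n hn
          rw [mem_Ioc] at hn
          have hn0 : (0 : ℝ) < n := by exact_mod_cast hn.1
          have : Real.log n ≤ L := Real.log_le_log hn0 (by
            calc (n : ℝ) ≤ X := by exact_mod_cast hn.2.trans hYX
              _ ≤ x := hXx)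
          linarith [ha n]
      _ = Y * (2 * L) := by rw [sum_const, Nat.card_Ioc, nsmul_eq_mul]; simp
      _ ≤ (x / L ^ (A + 1)) * (2 * L) := by gcongr
      _ = 2 * x / L ^ A := by rw [pow_succ]; field_simp
  rcases hYX.eq_or_lt with hYX' | hYX'
  · rw [← hYX']
    refine hYtriv.trans ?_
    gcongr
    linarith [show 0 ≤ 2 * C * 2 ^ K by positivity]
  -- the main part
  have hlogY : L / 2 ≤ Real.log ((Y + 1 : ℕ) : ℝ) := by
    have h1 : x / L ^ (A + 1) ≤ ((Y + 1 : ℕ) : ℝ) := by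
      push_cast
      exact (Nat.lt_floor_add_one _).le
    calc L / 2 ≤ L - (A + 1 : ℝ) * Real.log L := by linarith
      _ = Real.log (x / L ^ (A + 1)) := by
        rw [Real.log_div hx0.ne' (by positivity), Real.log_pow, ← hL]; push_cast; ring
      _ ≤ _ := Real.log_le_log (by positivity) h1
  have hpos : ∀ n : ℕ, Y < n → 0 < Real.log n := by
    intro n hn
    calc 0 < L / 2 := by positivity
      _ ≤ Real.log ((Y + 1 : ℕ) : ℝ) := hlogY
      _ ≤ Real.log n := Real.log_le_log (by positivity) (by exact_mod_cast hn)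
  have hab := FS_abel b (fun n => (Real.log n ^ K)⁻¹) Y X (by
      intro n hn _
      have h1 := hpos n hn
      have h2 : Real.log n ≤ Real.log ((n + 1 : ℕ) : ℝ) :=
        Real.log_le_log (by exact_mod_cast Nat.pos_of_ne_zero (by omega)) (by push_cast; linarith)
      gcongr) (by
      intro n hn
      have := hpos n hn
      positivity) (2 * (C * x * (L ^ (K + 1) / L ^ (A + 2)))) (by
      intro m hm1 hm2
      have e : ∑ n ∈ Ioc Y m, b n = ∑ n ∈ Ioc 0 m, b n - ∑ n ∈ Ioc 0 Y, b n := by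
        rw [← sum_Ioc_consecutive _ (Nat.zero_le Y) hm1]; ring
      rw [e]
      have h1 := hB m (by
        calc (m : ℝ) ≤ X := by exact_mod_cast hm2
          _ ≤ x := hXx)
      have h2 := hB Y (by
        calc (Y : ℝ) ≤ X := by exact_mod_cast hYX
          _ ≤ x := hXx)
      calc _ ≤ _ := norm_sub_le _ _
        _ ≤ _ := by linarith) hYX'
  have e1 : ∑ n ∈ Ioc Y X, a n = ∑ n ∈ Ioc Y X, b n * (((Real.log n ^ K)⁻¹ : ℝ) : ℂ) := by
    apply sum_congr rfl
    intro n hn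
    rw [mem_Ioc] at hn
    have := hpos n hn.1
    rw [hbdef]
    simp only
    have hne : ((Real.log n : ℝ) : ℂ) ^ K ≠ 0 := pow_ne_zero _ (by exact_mod_cast this.ne')
    push_cast at hne ⊢
    rw [mul_assoc, mul_inv_cancel₀ hne, mul_one]
  rw [← sum_Ioc_consecutive _ (Nat.zero_le Y) hYX, e1]
  have h8 : 2 * (C * x * (L ^ (K + 1) / L ^ (A + 2))) * (Real.log ((Y + 1 : ℕ) : ℝ) ^ K)⁻¹ ≤
      2 * C * 2 ^ K * x / L ^ A := by
    calc 2 * (C * x * (L ^ (K + 1) / L ^ (A + 2))) * (Real.log ((Y + 1 : ℕ) : ℝ) ^ K)⁻¹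
        ≤ 2 * (C * x * (L ^ (K + 1) / L ^ (A + 2))) * ((L / 2) ^ K)⁻¹ := by gcongr
      _ = 2 * C * 2 ^ K * x / L ^ (A + 1) := by
        have e2 : L ^ (K + 1) = L ^ K * L := pow_succ _ _
        have e3 : L ^ (A + 2) = L ^ (A + 1) * L := pow_succ _ _
        rw [div_pow, e2, e3]
        field_simp
      _ ≤ 2 * C * 2 ^ K * x / L ^ A := by
        gcongr
        · linarith
        · omega
  calc _ ≤ _ := norm_add_le _ _
    _ ≤ 2 * x / L ^ A + 2 * C * 2 ^ K * x / L ^ A := add_le_add hYtriv (hab.trans h8)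
    _ = _ := by ring

end Pool.Agent.CH
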